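import Pool.Agent.Run7.h350.EP.Iface

/-!
# Piece BALL of project EP (helper350), by helper834: the interior ball
-/

set_option autoImplicit false
set_option linter.all false

namespace Run7.h834.EP.Ball

open MeasureTheory Set Topology
open Pool.Agent.Run7.h350.EP

theorem hor_sub {m : ℕ} (x y : X m) : hor (x - y) = hor x - hor y := by
  ext i; simp [hor]

theorem norm_sq_split {m : ℕ} (x : X m) : ‖x‖ ^ 2 = ‖hor x‖ ^ 2 + x (Fin.last m) ^ 2 := by
  rw [EuclideanSpace.norm_sq_eq, EuclideanSpace.norm_sq_eq, Fin.sum_univ_castSucc]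
  simp [hor]

theorem norm_hor_le {m : ℕ} (x : X m) : ‖hor x‖ ≤ ‖x‖ := by
  have h := norm_sq_split x
  have h2 := sq_nonneg (x (Fin.last m))
  exact abs_le_of_sq_le_sq' (by linarith) (norm_nonneg _) |>.2

/-- the point with horizontal part `ξ` and height `η` -/
noncomputable def mk {m : ℕ} (ξ : EuclideanSpace ℝ (Fin m)) (η : ℝ) : X m :=
  WithLp.toLp 2 (Fin.snoc (α := fun _ => ℝ) (fun i => ξ i) η)

theorem hor_mk {m : ℕ} (ξ : EuclideanSpace ℝ (Fin m)) (η : ℝ) : hor (mk ξ η) = ξ := by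
  ext i; simp [hor, mk]

theorem last_mk {m : ℕ} (ξ : EuclideanSpace ℝ (Fin m)) (η : ℝ) : mk ξ η (Fin.last m) = η := by
  simp [mk]

/-- the quadratic upper bound -/
theorem taylor {m : ℕ} (φ : EuclideanSpace ℝ (Fin m) → ℝ) (hφ : ContDiff ℝ 2 φ) :
    ∃ K > (0 : ℝ), ∃ δ > (0 : ℝ), ∀ ξ : EuclideanSpace ℝ (Fin m), ‖ξ‖ < δ →
      φ ξ ≤ φ 0 + fderiv ℝ φ 0 ξ + K * ‖ξ‖ ^ 2 := by
  have h1 : ContDiff ℝ 1 (fderiv ℝ φ) := hφ.fderiv_right (by norm_num)
  obtain ⟨K, t, ht, hL⟩ := (h1.contDiffAt (x := 0)).exists_lipschitzOnWith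
  obtain ⟨δ, hδ, hb⟩ := Metric.mem_nhds_iff.1 ht
  refine ⟨K + 1, by positivity, δ, hδ, fun ξ hξ => ?_⟩
  have hdiff : Differentiable ℝ φ := hφ.differentiable (by norm_num)
  have hsub : Metric.closedBall (0 : EuclideanSpace ℝ (Fin m)) ‖ξ‖ ⊆ t :=
    (Metric.closedBall_subset_ball hξ).trans hb
  have h2 : ‖φ ξ - φ 0 - fderiv ℝ φ 0 (ξ - 0)‖ ≤ (K * ‖ξ‖) * ‖ξ - 0‖ := by
    refine (convex_closedBall (0 : EuclideanSpace ℝ (Fin m)) ‖ξ‖).norm_image_sub_le_of_norm_fderiv_le'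
      (fun x _ => hdiff x) ?_ (Metric.mem_closedBall_self (norm_nonneg _)) (by simp)
    intro x hx
    have h3 := hL.dist_le_mul x (hsub hx) 0 (hsub (Metric.mem_closedBall_self (norm_nonneg _)))
    rw [dist_eq_norm, dist_zero_right] at h3
    refine h3.trans (mul_le_mul_of_nonneg_left ?_ K.2)
    simpa using hx
  rw [sub_zero, Real.norm_eq_abs] at h2
  have h4 := (abs_le.1 h2).2
  nlinarith [sq_nonneg ‖ξ‖]

theorem t_BALL : S_BALL := by
  intro m φ hφ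
  obtain ⟨K, hK, δ, hδ, hT⟩ := taylor φ hφ
  obtain ⟨g, hg⟩ : ∃ g, g = (InnerProductSpace.toDual ℝ (EuclideanSpace ℝ (Fin m))).symm
    (fderiv ℝ φ 0) := ⟨_, rfl⟩
  have hgξ : ∀ ξ, fderiv ℝ φ 0 ξ = inner ℝ g ξ := by
    intro ξ; rw [hg, InnerProductSpace.toDual_symm_apply]
  obtain ⟨N, hN⟩ : ∃ N, N = Real.sqrt (‖g‖ ^ 2 + 1) := ⟨_, rfl⟩
  have hNsq : N ^ 2 = ‖g‖ ^ 2 + 1 := by rw [hN]; exact Real.sq_sqrt (by positivity)
  have hN0 : 0 < N := by rw [hN]; exact Real.sqrt_pos.2 (by positivity)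
  obtain ⟨s, hs⟩ : ∃ s, s = min (1 / (2 * K)) (δ / (2 * N)) := ⟨_, rfl⟩
  have hs0 : 0 < s := by rw [hs]; exact lt_min (by positivity) (by positivity)
  have hsK : 2 * s * K ≤ 1 := by
    have h1 : s ≤ 1 / (2 * K) := by rw [hs]; exact min_le_left _ _
    rw [le_div_iff₀ (by positivity)] at h1
    linarith
  have hsN : 2 * (s * N) ≤ δ := by
    have h1 : s ≤ δ / (2 * N) := by rw [hs]; exact min_le_right _ _
    rw [le_div_iff₀ (by positivity)] at h1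
    linarith
  obtain ⟨p, hp⟩ : ∃ p : X m, p = mk 0 (φ 0) := ⟨_, rfl⟩
  obtain ⟨z, hz⟩ : ∃ z : X m, z = mk (-(s • g)) (φ 0 + s) := ⟨_, rfl⟩
  have hdist : dist p z = s * N := by
    have h1 : ‖p - z‖ ^ 2 = (s * N) ^ 2 := by
      rw [norm_sq_split, hor_sub, hp, hz, hor_mk, hor_mk]
      have h2 : (mk (0 : EuclideanSpace ℝ (Fin m)) (φ 0) - mk (-(s • g)) (φ 0 + s)) (Fin.last m)
          = -s := by
        show mk (0 : EuclideanSpace ℝ (Fin m)) (φ 0) (Fin.last m) -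
          mk (-(s • g)) (φ 0 + s) (Fin.last m) = -s
        rw [last_mk, last_mk]; ring
      rw [h2, sub_neg_eq_add, zero_add, norm_smul, Real.norm_eq_abs, abs_of_pos hs0, mul_pow,
        mul_pow, hNsq]
      ring
    rw [dist_eq_norm]
    exact (sq_eq_sq₀ (norm_nonneg _) (by positivity)).1 h1
  refine ⟨p, z, s * N, by positivity, ?_, ?_, hdist, ?_⟩
  · rw [hp, last_mk, hor_mk]
  · intro q hq
    rw [Metric.mem_ball] at hq
    obtain ⟨ξ, hξ⟩ : ∃ ξ, ξ = hor q := ⟨_, rfl⟩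
    obtain ⟨η, hη⟩ : ∃ η, η = q (Fin.last m) - φ 0 := ⟨_, rfl⟩
    have h1 : ‖q - z‖ ^ 2 = ‖ξ + s • g‖ ^ 2 + (η - s) ^ 2 := by
      rw [norm_sq_split, hor_sub, hz, hor_mk, sub_neg_eq_add, ← hξ]
      have h2 : (q - mk (-(s • g)) (φ 0 + s)) (Fin.last m) = η - s := by
        show q (Fin.last m) - mk (-(s • g)) (φ 0 + s) (Fin.last m) = η - s
        rw [last_mk, hη]; ring
      rw [h2]
    have h2 : ‖q - z‖ ^ 2 < (s * N) ^ 2 := by
      rw [dist_eq_norm] at hq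
      exact pow_lt_pow_left₀ hq (norm_nonneg _) two_ne_zero
    have h3 : ‖ξ + s • g‖ ^ 2 = ‖ξ‖ ^ 2 + 2 * s * inner ℝ g ξ + s ^ 2 * ‖g‖ ^ 2 := by
      rw [norm_add_sq_real, inner_smul_right, norm_smul, Real.norm_eq_abs, abs_of_pos hs0,
        real_inner_comm]
      ring
    rw [h1, h3, mul_pow, hNsq] at h2
    have h4 : ‖ξ‖ ^ 2 + η ^ 2 < 2 * s * (η - inner ℝ g ξ) := by nlinarith
    have h5 : ‖ξ‖ < δ := by
      have h6 : ξ = hor (q - p) := by
        rw [hor_sub, ← hξ, hp, hor_mk, sub_zero]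
      rw [h6]
      refine (norm_hor_le _).trans_lt ?_
      rw [← dist_eq_norm]
      have h7 := dist_triangle_right q p z
      rw [hdist] at h7
      linarith
    have h6 := hT ξ h5
    rw [hgξ] at h6
    have h7 : K * ‖ξ‖ ^ 2 < η - inner ℝ g ξ := by
      have h8 : 2 * s * (K * ‖ξ‖ ^ 2) < 2 * s * (η - inner ℝ g ξ) := by
        calc 2 * s * (K * ‖ξ‖ ^ 2) = (2 * s * K) * ‖ξ‖ ^ 2 := by ring
          _ ≤ 1 * ‖ξ‖ ^ 2 := mul_le_mul_of_nonneg_right hsK (sq_nonneg _)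
          _ ≤ ‖ξ‖ ^ 2 + η ^ 2 := by nlinarith [sq_nonneg η]
          _ < _ := h4
      exact lt_of_mul_lt_mul_left h8 (by positivity)
    show φ (hor q) < q (Fin.last m)
    rw [← hξ]
    linarith
  · have h1 : inner ℝ (z - p) (ev m) = s := by
      have h2 : (z - p) (Fin.last m) = s := by
        show z (Fin.last m) - p (Fin.last m) = s
        rw [hz, hp, last_mk, last_mk]; ring
      rw [ev, EuclideanSpace.inner_single_right, h2]
      simp
    rw [h1]; exact hs0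

end Run7.h834.EP.Ball

namespace Run7.h834.EP

theorem t_BALL : Pool.Agent.Run7.h350.EP.S_BALL := Ball.t_BALL

end Run7.h834.EP
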