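import Pool.Agent.Run7.h350.EP.Iface

/-!
# Piece TL of project EP (helper350), by helper834: the translation lemma
-/

set_option autoImplicit false
set_option linter.all false

namespace Run7.h834.EP

open MeasureTheory Set Topology
open scoped ENNReal
open Pool.Agent.Run7.h350.EP

/-- Cauchy-Schwarz for the derivative -/
theorem fderiv_sq_le {m : ℕ} (w : X m → ℝ) (y τ : X m) :
    (fderiv ℝ w y τ) ^ 2 ≤ ‖τ‖ ^ 2 * gsq w y := by
  have h1 : fderiv ℝ w y τ = ∑ i, τ i * pd i w y := by
    have h2 : τ = ∑ i, τ i • (EuclideanSpace.single i (1 : ℝ) : X m) := by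
      have := (EuclideanSpace.basisFun (Fin (m + 1)) ℝ).sum_repr τ
      simpa using this.symm
    conv_lhs => rw [h2]
    rw [map_sum]
    refine Finset.sum_congr rfl fun i _ => ?_
    rw [map_smul, smul_eq_mul, pd]
  rw [h1, EuclideanSpace.norm_sq_eq, gsq]
  simp only [Real.norm_eq_abs, sq_abs]
  exact Finset.sum_mul_sq_le_sq_mul_sq _ _ _

theorem gsq_nonneg {m : ℕ} (w : X m → ℝ) (y : X m) : 0 ≤ gsq w y :=
  Finset.sum_nonneg fun i _ => sq_nonneg _

theorem gsq_cont {m : ℕ} (w : X m → ℝ) (hw : ContDiff ℝ 1 w) : Continuous (gsq w) := by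
  unfold gsq pd
  refine continuous_finset_sum _ fun i _ => ?_
  exact ((hw.continuous_fderiv one_ne_zero).clm_apply continuous_const).pow 2

theorem gsq_zero {m : ℕ} (w : X m → ℝ) (x : X m) (hx : x ∉ tsupport w) : gsq w x = 0 := by
  unfold gsq pd
  rw [fderiv_of_notMem_tsupport (𝕜 := ℝ) hx]
  simp

theorem gsq_supp {m : ℕ} (w : X m → ℝ) (hc : HasCompactSupport w) : HasCompactSupport (gsq w) :=
  HasCompactSupport.intro hc fun x hx => gsq_zero w x hx

/-- Jensen on `[0, 1]` -/
theorem jensen (f : ℝ → ℝ) (hf : Continuous f) :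
    (∫ t in (0 : ℝ)..1, f t) ^ 2 ≤ ∫ t in (0 : ℝ)..1, f t ^ 2 := by
  obtain ⟨c, hc⟩ : ∃ c, c = ∫ t in (0 : ℝ)..1, f t := ⟨_, rfl⟩
  have h1 : 0 ≤ ∫ t in (0 : ℝ)..1, (f t - c) ^ 2 :=
    intervalIntegral.integral_nonneg zero_le_one fun t _ => sq_nonneg _
  have h2 : ∫ t in (0 : ℝ)..1, (f t - c) ^ 2 =
      (∫ t in (0 : ℝ)..1, f t ^ 2) - c ^ 2 := by
    have h3 : ∀ t, (f t - c) ^ 2 = f t ^ 2 - (2 * c) * f t + c ^ 2 := fun t => by ring
    simp only [h3]
    rw [intervalIntegral.integral_add, intervalIntegral.integral_sub,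
      intervalIntegral.integral_const_mul, intervalIntegral.integral_const, ← hc]
    · simp; ring
    · exact (hf.pow 2).intervalIntegrable _ _
    · exact (continuous_const.mul hf).intervalIntegrable _ _
    · exact ((hf.pow 2).sub (continuous_const.mul hf)).intervalIntegrable _ _
    · exact continuous_const.intervalIntegrable _ _
  rw [← hc]
  linarith

/-- the pointwise bound -/
theorem ptw {m : ℕ} (w : X m → ℝ) (hw : ContDiff ℝ 1 w) (x τ : X m) :
    (w (x + τ) - w x) ^ 2 ≤ ∫ t in (0 : ℝ)..1, ‖τ‖ ^ 2 * gsq w (x + t • τ) := by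
  have hd : ∀ t : ℝ, HasDerivAt (fun t : ℝ => w (x + t • τ)) (fderiv ℝ w (x + t • τ) τ) t := by
    intro t
    have h1 : HasDerivAt (fun t : ℝ => x + t • τ) τ t := by
      have := ((hasDerivAt_id t).smul_const τ).const_add x
      simpa using this
    exact ((hw.differentiable one_ne_zero).differentiableAt.hasFDerivAt).comp_hasDerivAt t h1
  have hline : Continuous fun t : ℝ => x + t • τ :=
    continuous_const.add (continuous_id.smul continuous_const)
  have hcont : Continuous fun t : ℝ => fderiv ℝ w (x + t • τ) τ :=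
    ((hw.continuous_fderiv one_ne_zero).comp hline).clm_apply continuous_const
  have h2 : ∫ t in (0 : ℝ)..1, fderiv ℝ w (x + t • τ) τ = w (x + τ) - w x := by
    rw [intervalIntegral.integral_eq_sub_of_hasDerivAt (fun t _ => hd t)
      (hcont.intervalIntegrable _ _)]
    simp
  rw [← h2]
  refine (jensen _ hcont).trans ?_
  apply intervalIntegral.integral_mono_on zero_le_one ((hcont.pow 2).intervalIntegrable _ _)
  · exact (continuous_const.mul ((gsq_cont w hw).comp hline)).intervalIntegrable _ _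
  · intro t _
    exact fderiv_sq_le w _ τ

theorem t_TL : S_TL := by
  intro m w hw hc τ A G hA hG hAG
  have hgc := gsq_cont w hw
  have hg0 := gsq_nonneg w
  -- integrability
  have hi1 : Integrable (fun x => (w (x + τ) - w x) ^ 2) := by
    apply Continuous.integrable_of_hasCompactSupport
    · exact ((hw.continuous.comp (continuous_id.add continuous_const)).sub hw.continuous).pow 2
    · have h1 : HasCompactSupport fun x => w (x + τ) :=
        hc.comp_homeomorph (Homeomorph.addRight τ)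
      have h2 := h1.sub hc
      exact h2.comp_left (g := fun r : ℝ => r ^ 2) (by norm_num)
  have hi2 : Integrable (gsq w) := hgc.integrable_of_hasCompactSupport (gsq_supp w hc)
  have hR : 0 ≤ ‖τ‖ ^ 2 * ∫ x in G, gsq w x :=
    mul_nonneg (sq_nonneg _) (integral_nonneg fun x => hg0 x)
  rw [← ENNReal.ofReal_le_ofReal_iff hR, ENNReal.ofReal_mul (sq_nonneg _),
    ofReal_integral_eq_lintegral_ofReal hi1.integrableOn
      (Filter.Eventually.of_forall fun x => sq_nonneg _),
    ofReal_integral_eq_lintegral_ofReal hi2.integrableOn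
      (Filter.Eventually.of_forall fun x => hg0 x)]
  obtain ⟨H, hH⟩ : ∃ H : X m → ℝ≥0∞, H = G.indicator fun x => ENNReal.ofReal (gsq w x) := ⟨_, rfl⟩
  have hHm : Measurable H := by
    rw [hH]
    exact (hgc.measurable.ennreal_ofReal).indicator hG
  have hHG : ∫⁻ x in G, ENNReal.ofReal (gsq w x) = ∫⁻ x, H x := by
    rw [hH, lintegral_indicator hG]
  have hpt : ∀ x ∈ A, ENNReal.ofReal ((w (x + τ) - w x) ^ 2) ≤
      ENNReal.ofReal (‖τ‖ ^ 2) * ∫⁻ t in Ioc (0 : ℝ) 1, H (x + t • τ) := by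
    intro x hx
    have hline : Continuous fun t : ℝ => x + t • τ :=
      continuous_const.add (continuous_id.smul continuous_const)
    have hci : Continuous fun t : ℝ => ‖τ‖ ^ 2 * gsq w (x + t • τ) :=
      continuous_const.mul (hgc.comp hline)
    refine (ENNReal.ofReal_le_ofReal (ptw w hw x τ)).trans (le_of_eq ?_)
    rw [intervalIntegral.integral_of_le zero_le_one, ofReal_integral_eq_lintegral_ofReal
      (hci.integrableOn_Icc.mono_set Ioc_subset_Icc_self)
      (Filter.Eventually.of_forall fun t => mul_nonneg (sq_nonneg _) (hg0 _)),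
      ← lintegral_const_mul' _ _ ENNReal.ofReal_ne_top]
    apply setLIntegral_congr_fun measurableSet_Ioc
    intro t ht
    show ENNReal.ofReal _ = ENNReal.ofReal _ * H (x + t • τ)
    rw [hH, indicator_of_mem (hAG x hx t ⟨ht.1.le, ht.2⟩), ENNReal.ofReal_mul (sq_nonneg _)]
  calc ∫⁻ x in A, ENNReal.ofReal ((w (x + τ) - w x) ^ 2)
      ≤ ∫⁻ x in A, ENNReal.ofReal (‖τ‖ ^ 2) * ∫⁻ t in Ioc (0 : ℝ) 1, H (x + t • τ) :=
        setLIntegral_mono' hA hpt
    _ ≤ ∫⁻ x, ENNReal.ofReal (‖τ‖ ^ 2) * ∫⁻ t in Ioc (0 : ℝ) 1, H (x + t • τ) :=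
        setLIntegral_le_lintegral _ _
    _ = ENNReal.ofReal (‖τ‖ ^ 2) * ∫⁻ x, ∫⁻ t in Ioc (0 : ℝ) 1, H (x + t • τ) := by
        rw [lintegral_const_mul' _ _ ENNReal.ofReal_ne_top]
    _ = ENNReal.ofReal (‖τ‖ ^ 2) * ∫⁻ t in Ioc (0 : ℝ) 1, ∫⁻ x, H (x + t • τ) := by
        rw [lintegral_lintegral_swap]
        have h1 : Measurable fun z : X m × ℝ => H (z.1 + z.2 • τ) :=
          hHm.comp (measurable_fst.add (measurable_snd.smul_const τ))
        exact h1.aemeasurable
    _ = ENNReal.ofReal (‖τ‖ ^ 2) * ∫⁻ t in Ioc (0 : ℝ) 1, ∫⁻ x, H x := by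
        congr 1
        exact lintegral_congr fun t => lintegral_add_right_eq_self H _
    _ = ENNReal.ofReal (‖τ‖ ^ 2) * ∫⁻ x in G, ENNReal.ofReal (gsq w x) := by
        rw [setLIntegral_const, Real.volume_Ioc, hHG]
        norm_num

end Run7.h834.EP
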