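import Pool.Agent.Run7.h350.EP.Iface
import Pool.Agent.Run7.h834.EP.TL

/-!
# Piece PATCH of project EP (helper350), by helper834: the first ball
-/

set_option autoImplicit false
set_option linter.all false

namespace Run7.h834.EP

open MeasureTheory Set Topology
open scoped ENNReal
open Pool.Agent.Run7.h350.EP

theorem hor_add {m : ℕ} (x y : X m) : hor (x + y) = hor x + hor y := by
  ext i; simp [hor]

theorem hor_sub {m : ℕ} (x y : X m) : hor (x - y) = hor x - hor y := by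
  ext i; simp [hor]

theorem hor_smul {m : ℕ} (c : ℝ) (x : X m) : hor (c • x) = c • hor x := by
  ext i; simp [hor]

theorem hor_ev (m : ℕ) : hor (ev m) = 0 := by
  ext i
  simp [hor, ev, Fin.castSucc_ne_last]

theorem ev_last (m : ℕ) : ev m (Fin.last m) = 1 := by simp [ev]

theorem norm_ev (m : ℕ) : ‖ev m‖ = 1 := by simp [ev]

theorem norm_sq_split {m : ℕ} (x : X m) : ‖x‖ ^ 2 = ‖hor x‖ ^ 2 + x (Fin.last m) ^ 2 := by
  rw [EuclideanSpace.norm_sq_eq, EuclideanSpace.norm_sq_eq, Fin.sum_univ_castSucc]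
  simp [hor]

theorem norm_hor_le {m : ℕ} (x : X m) : ‖hor x‖ ≤ ‖x‖ := by
  have h := norm_sq_split x
  have h2 := sq_nonneg (x (Fin.last m))
  exact abs_le_of_sq_le_sq' (by linarith) (norm_nonneg _) |>.2

theorem abs_last_le {m : ℕ} (x : X m) : |x (Fin.last m)| ≤ ‖x‖ := by
  have h := norm_sq_split x
  have h2 := sq_nonneg (‖hor x‖)
  exact abs_le_of_sq_le_sq (by linarith) (norm_nonneg _)

theorem t_PATCH (hTL : S_TL) : S_PATCH := by
  intro m φ hφ v hv p r₀ v₀ hp hr₀ hv₀ hvp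
  obtain ⟨δ, hδ⟩ : ∃ δ, δ = r₀ / 8 := ⟨_, rfl⟩
  have hδ0 : 0 < δ := by rw [hδ]; positivity
  obtain ⟨ρ₁, hρ₁, hφ1⟩ := Metric.continuous_iff.1 hφ (hor p) (δ / 2) (by positivity)
  obtain ⟨ρ, hρ⟩ : ∃ ρ, ρ = min ρ₁ (δ / 2) := ⟨_, rfl⟩
  have hρ0 : 0 < ρ := by rw [hρ]; exact lt_min hρ₁ (by positivity)
  have hρle1 : ρ ≤ ρ₁ := by rw [hρ]; exact min_le_left _ _
  have hρle2 : ρ ≤ δ / 2 := by rw [hρ]; exact min_le_right _ _
  obtain ⟨p₁, hp₁⟩ : ∃ p₁, p₁ = p + δ • ev m := ⟨_, rfl⟩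
  have hlast1 : p₁ (Fin.last m) = p (Fin.last m) + δ := by
    rw [hp₁]; simp [ev]
  have hhor1 : hor p₁ = hor p := by
    rw [hp₁, hor_add, hor_smul, hor_ev]; simp
  -- estimates on the ball
  have hball : ∀ x ∈ Metric.ball p₁ ρ, |φ (hor x) - φ (hor p)| < δ / 2 ∧
      |x (Fin.last m) - (p (Fin.last m) + δ)| < δ / 2 := by
    intro x hx
    rw [Metric.mem_ball, dist_eq_norm] at hx
    constructor
    · have h1 : dist (hor x) (hor p) < ρ₁ := by
        rw [dist_eq_norm, ← hhor1, ← hor_sub]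
        exact lt_of_le_of_lt (norm_hor_le _) (hx.trans_le hρle1)
      have := hφ1 _ h1
      rwa [Real.dist_eq] at this
    · have h1 := abs_last_le (x - p₁)
      have h2 : (x - p₁) (Fin.last m) = x (Fin.last m) - (p (Fin.last m) + δ) := by
        rw [← hlast1]; rfl
      rw [h2] at h1
      exact lt_of_le_of_lt h1 (hx.trans_le hρle2)
  have hsubΩ : Metric.ball p₁ ρ ⊆ epigraph φ := by
    intro x hx
    obtain ⟨h1, h2⟩ := hball x hx
    rw [abs_lt] at h1 h2
    show φ (hor x) < x (Fin.last m)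
    linarith [h1.2, h2.1]
  have hout : ∀ x ∈ Metric.ball p₁ ρ, x + (-(2 * δ)) • ev m ∉ epigraph φ := by
    intro x hx h
    obtain ⟨h1, h2⟩ := hball x hx
    rw [abs_lt] at h1 h2
    have h3 : φ (hor (x + (-(2 * δ)) • ev m)) < (x + (-(2 * δ)) • ev m) (Fin.last m) := h
    rw [hor_add, hor_smul, hor_ev, smul_zero, add_zero] at h3
    have h4 : (x + (-(2 * δ)) • ev m) (Fin.last m) = x (Fin.last m) - 2 * δ := by
      simp [ev]; ring
    rw [h4] at h3
    linarith [h1.1, h2.2]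
  refine ⟨p₁, hsubΩ (Metric.mem_ball_self hρ0), ρ, hρ0, (2 * δ) ^ 2 * (v₀⁻¹) ^ 2, hsubΩ, ?_⟩
  rintro w ⟨hw, hwc, hws⟩
  have hgc := gsq_cont w hw
  have hg0 := gsq_nonneg w
  have hnorm : ‖(-(2 * δ)) • ev m‖ ^ 2 = (2 * δ) ^ 2 := by
    rw [norm_smul, norm_ev, mul_one, Real.norm_eq_abs, sq_abs]; ring
  have h1 := hTL m w hw hwc ((-(2 * δ)) • ev m) (Metric.ball p₁ ρ) (Metric.ball p r₀)
    measurableSet_ball measurableSet_ball (by
      intro x hx t ht
      rw [Metric.mem_ball, dist_eq_norm] at hx ⊢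
      have h2 : x + t • (-(2 * δ)) • ev m - p = (x - p₁) + (δ - t * (2 * δ)) • ev m := by
        rw [hp₁]; module
      rw [h2]
      have h3 : ‖(δ - t * (2 * δ)) • ev m‖ ≤ δ := by
        rw [norm_smul, norm_ev, mul_one, Real.norm_eq_abs, abs_le]
        constructor <;> nlinarith [ht.1, ht.2]
      calc ‖(x - p₁) + (δ - t * (2 * δ)) • ev m‖ ≤ ‖x - p₁‖ + ‖(δ - t * (2 * δ)) • ev m‖ :=
            norm_add_le _ _
        _ < ρ + δ := by linarith
        _ ≤ r₀ := by rw [hδ] at hρle2 ⊢; linarith)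
  rw [hnorm] at h1
  have h2 : ∫ x in Metric.ball p₁ ρ, (w (x + (-(2 * δ)) • ev m) - w x) ^ 2 =
      ∫ x in Metric.ball p₁ ρ, w x ^ 2 := by
    apply setIntegral_congr_fun measurableSet_ball
    intro x hx
    have h3 : w (x + (-(2 * δ)) • ev m) = 0 :=
      image_eq_zero_of_notMem_tsupport fun h => hout x hx (hws h)
    show (w (x + (-(2 * δ)) • ev m) - w x) ^ 2 = w x ^ 2
    rw [h3]; ring
  rw [h2] at h1
  refine h1.trans ?_
  rw [mul_assoc]
  refine mul_le_mul_of_nonneg_left ?_ (sq_nonneg _)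
  -- integrability of the weighted function
  have hi : Integrable (fun x => (v x) ^ 2 * gsq w x) := by
    have hs : Function.support (fun x => (v x) ^ 2 * gsq w x) ⊆ tsupport w := by
      intro x hx
      by_contra hn
      exact hx (by simp [gsq_zero w x hn])
    rw [← integrableOn_iff_integrable_of_support_subset hs]
    apply ContinuousOn.integrableOn_compact hwc
    exact ((hv.mono hws).pow 2).mul hgc.continuousOn
  have hi2 : Integrable (gsq w) := hgc.integrable_of_hasCompactSupport (gsq_supp w hwc)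
  rw [← integral_const_mul]
  calc ∫ x in Metric.ball p r₀, gsq w x
      ≤ ∫ x in Metric.ball p r₀, (v₀⁻¹) ^ 2 * ((v x) ^ 2 * gsq w x) := by
        apply setIntegral_mono_on hi2.integrableOn (hi.const_mul _).integrableOn measurableSet_ball
        intro x hx
        by_cases hxs : x ∈ tsupport w
        · have h3 := hvp x (hws hxs) hx
          have h4 : 1 ≤ (v₀⁻¹) ^ 2 * (v x) ^ 2 := by
            rw [← mul_pow]
            apply one_le_pow₀
            rw [inv_mul_eq_div, one_le_div hv₀]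
            exact h3
          calc gsq w x = 1 * gsq w x := (one_mul _).symm
            _ ≤ ((v₀⁻¹) ^ 2 * (v x) ^ 2) * gsq w x := mul_le_mul_of_nonneg_right h4 (hg0 x)
            _ = _ := by ring
        · rw [gsq_zero w x hxs]; simp
    _ ≤ ∫ x, (v₀⁻¹) ^ 2 * ((v x) ^ 2 * gsq w x) := by
        apply setIntegral_le_integral (hi.const_mul _)
        exact Filter.Eventually.of_forall fun x =>
          mul_nonneg (sq_nonneg _) (mul_nonneg (sq_nonneg _) (hg0 x))

end Run7.h834.EP
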